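import Pool.Agent.W203.WS.Stm

/-!
# Waring's problem with almost all shifts: the average of the error (part EE)
-/

set_option autoImplicit false

open MeasureTheory Finset

namespace Pool.Agent.W140.WS

open Pool.Agent.W203.WS

lemma norm_e (x : ℝ) : ‖e x‖ = 1 := by
  unfold e
  rw [show (2 * (Real.pi : ℂ) * Complex.I * (x : ℂ)) = ((2 * Real.pi * x : ℝ) : ℂ) * Complex.I by
    push_cast; ring]
  exact Complex.norm_exp_ofReal_mul_I _

lemma cont_e : Continuous e := by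
  unfold e
  fun_prop

lemma cont_S (k P : ℕ) : Continuous (fun q : ℝ × ℝ => S k P q.1 q.2) := by
  unfold S
  refine continuous_finset_sum _ fun x _ => ?_
  exact cont_e.comp (by fun_prop)

lemma norm_S (k P : ℕ) (t θ : ℝ) : ‖S k P t θ‖ ≤ 3 * P := by
  unfold S
  refine (norm_sum_le _ _).trans ?_
  simp only [norm_e, sum_const, nsmul_eq_mul, mul_one, Nat.card_Ico]
  rw [Nat.cast_sub (by omega)]
  push_cast
  linarith

lemma cont_J (k P : ℕ) : Continuous (fun t : ℝ => J1 k P t) := by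
  unfold J1
  apply intervalIntegral.continuous_parametric_intervalIntegral_of_continuous'
  exact cont_e.comp (by fun_prop)

lemma norm_J (k P : ℕ) (t : ℝ) : ‖J1 k P t‖ ≤ 3 * P := by
  unfold J1
  have h0 := intervalIntegral.norm_integral_le_of_norm_le_const (a := (P : ℝ)) (b := 4 * P)
    (C := 1) (f := fun u => e (t * u ^ k)) (fun x _ => (norm_e _).le)
  refine h0.trans ?_
  have hP : (0 : ℝ) ≤ P := Nat.cast_nonneg _
  rw [one_mul, abs_of_nonneg (by linarith)]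
  linarith

/-- the integrand -/
noncomputable def ff (k s P : ℕ) (ε : ℝ) (t : ℝ) (θ : Fin s → ℝ) : ℝ :=
  Kh ε t * ‖(∏ i, S k P t (θ i)) - J1 k P t ^ s‖

lemma cont_Kh (ε : ℝ) : Continuous (Kh ε) := by
  unfold Kh
  fun_prop

lemma Kh_nonneg {ε : ℝ} (hε : 0 ≤ ε) (t : ℝ) : 0 ≤ Kh ε t :=
  mul_nonneg hε (Real.exp_pos _).le

lemma cont_ff (k s P : ℕ) (ε : ℝ) :
    Continuous (fun q : ℝ × (Fin s → ℝ) => ff k s P ε q.1 q.2) := by
  unfold ff
  refine ((cont_Kh ε).comp continuous_fst).mul (Continuous.norm ?_)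
  refine Continuous.sub ?_ (((cont_J k P).comp continuous_fst).pow s)
  refine continuous_finset_prod _ fun i _ => ?_
  exact (cont_S k P).comp (continuous_fst.prodMk ((continuous_apply i).comp continuous_snd))

lemma ff_nonneg (k s P : ℕ) {ε : ℝ} (hε : 0 ≤ ε) (t : ℝ) (θ : Fin s → ℝ) :
    0 ≤ ff k s P ε t θ := mul_nonneg (Kh_nonneg hε t) (norm_nonneg _)

lemma ff_le (k s P : ℕ) {ε : ℝ} (hε : 0 ≤ ε) (t : ℝ) (θ : Fin s → ℝ) :
    ff k s P ε t θ ≤ Kh ε t * (2 * (3 * P) ^ s) := by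
  refine mul_le_mul_of_nonneg_left ?_ (Kh_nonneg hε t)
  have h1 : ‖∏ i, S k P t (θ i)‖ ≤ (3 * P) ^ s := by
    rw [norm_prod]
    refine (Finset.prod_le_prod (fun i _ => norm_nonneg _)
      (fun i _ => norm_S k P t (θ i))).trans ?_
    simp
  have h2 : ‖J1 k P t ^ s‖ ≤ (3 * P) ^ s := by
    rw [norm_pow]
    exact pow_le_pow_left₀ (norm_nonneg _) (norm_J k P t) s
  calc _ ≤ ‖∏ i, S k P t (θ i)‖ + ‖J1 k P t ^ s‖ := norm_sub_le _ _
    _ ≤ 2 * (3 * P) ^ s := by linarith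

lemma int_Kh {ε : ℝ} (hε : 0 < ε) : Integrable (Kh ε) := by
  have h0 : (0 : ℝ) < Real.pi * ε ^ 2 := by positivity
  have h1 := (integrable_exp_neg_mul_sq h0).const_mul ε
  refine h1.congr (Filter.Eventually.of_forall fun t => ?_)
  show ε * Real.exp (-(Real.pi * ε ^ 2) * t ^ 2) = ε * Real.exp (-Real.pi * (ε * t) ^ 2)
  congr 2
  ring

lemma vol_cube (s : ℕ) : (volume : Measure (Fin s → ℝ)) (cube s) = 1 := by
  unfold cube
  rw [volume_pi_pi]
  simp

lemma int_ff (k s P : ℕ) {ε : ℝ} (hε : 0 < ε) (A : Set ℝ) :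
    Integrable (fun q : ℝ × (Fin s → ℝ) => ff k s P ε q.1 q.2)
      (((volume : Measure ℝ).restrict A).prod ((volume : Measure (Fin s → ℝ)).restrict (cube s))) := by
  haveI : IsFiniteMeasure ((volume : Measure (Fin s → ℝ)).restrict (cube s)) :=
    ⟨by rw [Measure.restrict_apply_univ, vol_cube]; exact ENNReal.one_lt_top⟩
  have h1 : Integrable (fun q : ℝ × (Fin s → ℝ) => Kh ε q.1 * (2 * (3 * (P : ℝ)) ^ s))
      (((volume : Measure ℝ).restrict A).prod
        ((volume : Measure (Fin s → ℝ)).restrict (cube s))) :=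
    (int_Kh hε).restrict.mul_prod (integrable_const _)
  refine h1.mono' (cont_ff k s P ε).aestronglyMeasurable
    (Filter.Eventually.of_forall fun q => ?_)
  rw [Real.norm_of_nonneg (ff_nonneg k s P hε.le _ _)]
  exact ff_le k s P hε.le _ _

lemma int_ff' (k s P : ℕ) {ε : ℝ} (hε : 0 < ε) (θ : Fin s → ℝ) :
    Integrable (fun t : ℝ => ff k s P ε t θ) := by
  refine ((int_Kh hε).mul_const (2 * (3 * (P : ℝ)) ^ s)).mono'
    ((cont_ff k s P ε).comp (continuous_id.prodMk continuous_const)).aestronglyMeasurable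
    (Filter.Eventually.of_forall fun t => ?_)
  rw [Real.norm_of_nonneg (ff_nonneg k s P hε.le _ _)]
  exact ff_le k s P hε.le _ _

/-- mean square over the shift -/
noncomputable def aa (k P : ℕ) (t : ℝ) : ℝ := ∫ θ in (0 : ℝ)..1, ‖S k P t θ‖ ^ 2

lemma cont_aa (k P : ℕ) : Continuous (aa k P) := by
  unfold aa
  apply intervalIntegral.continuous_parametric_intervalIntegral_of_continuous'
  exact (cont_S k P).norm.pow 2

lemma aa_nonneg (k P : ℕ) (t : ℝ) : 0 ≤ aa k P t :=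
  intervalIntegral.integral_nonneg zero_le_one fun _ _ => by positivity

lemma aa_le (k P : ℕ) (t : ℝ) : aa k P t ≤ (3 * P) ^ 2 := by
  unfold aa
  have h0 := intervalIntegral.norm_integral_le_of_norm_le_const (a := (0 : ℝ)) (b := 1)
    (C := (3 * P) ^ 2) (f := fun θ => ‖S k P t θ‖ ^ 2) (fun x _ => by
      rw [Real.norm_of_nonneg (by positivity)]
      exact pow_le_pow_left₀ (norm_nonneg _) (norm_S k P t x) 2)
  rw [sub_zero, abs_one, mul_one] at h0
  exact (le_abs_self _).trans h0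

lemma int_aa (k s P : ℕ) {ε : ℝ} (hε : 0 < ε) :
    Integrable (fun t : ℝ => Kh ε t * aa k P t ^ ((s : ℝ) / 2)) := by
  have hs : (0 : ℝ) ≤ (s : ℝ) / 2 := by positivity
  refine ((int_Kh hε).mul_const (((3 * (P : ℝ)) ^ 2) ^ ((s : ℝ) / 2))).mono'
    ((cont_Kh ε).mul ((cont_aa k P).rpow_const fun _ => Or.inr hs)).aestronglyMeasurable
    (Filter.Eventually.of_forall fun t => ?_)
  rw [Real.norm_of_nonneg (mul_nonneg (Kh_nonneg hε.le t)
    (Real.rpow_nonneg (aa_nonneg k P t) _))]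
  exact mul_le_mul_of_nonneg_left (Real.rpow_le_rpow (aa_nonneg k P t) (aa_le k P t) hs)
    (Kh_nonneg hε.le t)

theorem t_EE (h1 : S_R1) (h2 : S_R2) (h3 : S_AV) : S_EE := by
  intro k s hk hs
  obtain ⟨C1, hC1, h1⟩ := h1 k s hk hs
  obtain ⟨C2, hC2, h2⟩ := h2 k s hk hs
  refine ⟨C1 + 2 * C2, by positivity, fun P ε hP hε hε1 => ?_⟩
  have hP1 : (1 : ℝ) ≤ P := by exact_mod_cast hP
  have hP0 : (0 : ℝ) < P := by linarith
  have hmA : MeasurableSet (Set.Icc (-T0 k P) (T0 k P)) := measurableSet_Icc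
  have hmc : MeasurableSet (cube s) := MeasurableSet.univ_pi fun _ => measurableSet_Icc
  have hEr : ∀ θ : Fin s → ℝ, Er k s P ε θ =
      (∫ t in Set.Icc (-T0 k P) (T0 k P), ff k s P ε t θ) +
      ∫ t in (Set.Icc (-T0 k P) (T0 k P))ᶜ, ff k s P ε t θ := fun θ =>
    (integral_add_compl hmA (int_ff' k s P hε θ)).symm
  have i1 : Integrable (fun θ : Fin s → ℝ =>
      ∫ t in Set.Icc (-T0 k P) (T0 k P), ff k s P ε t θ)
      ((volume : Measure (Fin s → ℝ)).restrict (cube s)) :=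
    (int_ff k s P hε (Set.Icc (-T0 k P) (T0 k P))).integral_prod_right
  have i2 : Integrable (fun θ : Fin s → ℝ =>
      ∫ t in (Set.Icc (-T0 k P) (T0 k P))ᶜ, ff k s P ε t θ)
      ((volume : Measure (Fin s → ℝ)).restrict (cube s)) :=
    (int_ff k s P hε (Set.Icc (-T0 k P) (T0 k P))ᶜ).integral_prod_right
  have hErf : (fun θ => Er k s P ε θ) = fun θ =>
      (∫ t in Set.Icc (-T0 k P) (T0 k P), ff k s P ε t θ) +
      ∫ t in (Set.Icc (-T0 k P) (T0 k P))ᶜ, ff k s P ε t θ := funext hEr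
  rw [hErf]
  refine ⟨i1.add i2, ?_⟩
  rw [integral_add i1 i2]
  have b1 : ∫ θ in cube s, (∫ t in Set.Icc (-T0 k P) (T0 k P), ff k s P ε t θ) ≤
      C1 * ε * (P : ℝ) ^ ((s : ℝ) - 1 - k) := by
    have e1 := norm_setIntegral_le_of_norm_le_const (μ := (volume : Measure (Fin s → ℝ)))
      (s := cube s) (f := fun θ => ∫ t in Set.Icc (-T0 k P) (T0 k P), ff k s P ε t θ)
      (C := C1 * ε * (P : ℝ) ^ ((s : ℝ) - 1 - k))
      (by rw [vol_cube]; exact ENNReal.one_lt_top)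
      (fun θ hθ => by
        rw [Real.norm_of_nonneg (integral_nonneg fun t => ff_nonneg k s P hε.le t θ)]
        exact h1 P ε θ hP hε hε1 hθ)
    rw [Measure.real, vol_cube, ENNReal.toReal_one, mul_one] at e1
    exact (le_abs_self _).trans e1
  have b2 : ∫ θ in cube s, (∫ t in (Set.Icc (-T0 k P) (T0 k P))ᶜ, ff k s P ε t θ) ≤
      2 * (C2 * (ε * (P : ℝ) ^ ((s : ℝ) - k - 1 / 2) + (P : ℝ) ^ ((s : ℝ) / 2))) := by
    have hsw := integral_integral_swap (μ := (volume : Measure ℝ).restrict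
      (Set.Icc (-T0 k P) (T0 k P))ᶜ) (ν := (volume : Measure (Fin s → ℝ)).restrict (cube s))
      (f := fun t θ => ff k s P ε t θ) (int_ff k s P hε (Set.Icc (-T0 k P) (T0 k P))ᶜ)
    rw [← hsw]
    have i3 : Integrable (fun t : ℝ => ∫ θ in cube s, ff k s P ε t θ)
        ((volume : Measure ℝ).restrict (Set.Icc (-T0 k P) (T0 k P))ᶜ) :=
      (int_ff k s P hε (Set.Icc (-T0 k P) (T0 k P))ᶜ).integral_prod_left
    have i4 : Integrable (fun t : ℝ => 2 * (Kh ε t * aa k P t ^ ((s : ℝ) / 2)))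
        ((volume : Measure ℝ).restrict (Set.Icc (-T0 k P) (T0 k P))ᶜ) :=
      ((int_aa k s P hε).const_mul 2).restrict
    refine (integral_mono i3 i4 fun t => ?_).trans ?_
    · show ∫ θ in cube s, Kh ε t * ‖(∏ i, S k P t (θ i)) - J1 k P t ^ s‖ ≤
        2 * (Kh ε t * aa k P t ^ ((s : ℝ) / 2))
      rw [integral_const_mul]
      have := mul_le_mul_of_nonneg_left (h3 k s P t (by omega)) (Kh_nonneg hε.le t)
      calc _ ≤ _ := this
        _ = _ := by unfold aa; ring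
    · rw [integral_const_mul]
      exact mul_le_mul_of_nonneg_left (h2 P ε hP hε hε1) zero_le_two
  have b3 : (P : ℝ) ^ ((s : ℝ) - 1 - k) ≤ (P : ℝ) ^ ((s : ℝ) - k - 1 / 2) :=
    Real.rpow_le_rpow_of_exponent_le hP1 (by linarith)
  have b4 : C1 * ε * (P : ℝ) ^ ((s : ℝ) - 1 - k) ≤
      C1 * ε * (P : ℝ) ^ ((s : ℝ) - k - 1 / 2) :=
    mul_le_mul_of_nonneg_left b3 (by positivity)
  have b5 : (0 : ℝ) ≤ (P : ℝ) ^ ((s : ℝ) / 2) := by positivity
  have b6 : 0 ≤ C1 * (P : ℝ) ^ ((s : ℝ) / 2) := by positivity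
  nlinarith [b1, b2, b4, b6]

end Pool.Agent.W140.WS
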